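import Pool.Agent.H8.ZA.Targets

/-!
Module VAL of the board za (MP_ccfdad_ag): extension of the degree valuation.
-/

open Polynomial

namespace Pool.Agent.H2.ZA

open Pool.Agent.H8.ZA

theorem val_core (L : Type) [Field L] (Ω : Type) [Field Ω] [Algebra L Ω] (τ : Ω)
    (hτ : Transcendental L τ) :
    ∃ (Γ : Type) (_ : LinearOrderedCommGroupWithZero Γ) (w : Valuation Ω Γ),
      1 < w τ ∧ ∀ a : Polynomial L, a ≠ 0 → w (aeval τ a) = w τ ^ a.natDegree := by
  have hτ0 : τ ≠ 0 := by
    rintro rfl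
    exact hτ isAlgebraic_zero
  have hinv : Transcendental L τ⁻¹ := fun h => hτ (by
    have := h.inv
    rwa [inv_inv] at this)
  let A : Subring Ω := (aeval τ⁻¹ : L[X] →ₐ[L] Ω).toRingHom.range
  have hA : ∀ b : L[X], aeval τ⁻¹ b ∈ A := fun b => ⟨b, rfl⟩
  have htA : τ⁻¹ ∈ A := by
    have := hA X
    rwa [aeval_X] at this
  let I : Ideal A := Ideal.span {⟨τ⁻¹, htA⟩}
  have hI : I ≠ ⊤ := by
    rw [Ideal.ne_top_iff_one]
    intro h1
    obtain ⟨⟨c, b, rfl⟩, hc⟩ := Ideal.mem_span_singleton.1 h1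
    have h2 : (1 : Ω) = τ⁻¹ * aeval τ⁻¹ b := congrArg Subtype.val hc
    have h3 : aeval τ⁻¹ (1 - X * b) = 0 := by
      rw [map_sub, map_one, map_mul, aeval_X, ← h2, sub_self]
    have h4 : (1 - X * b : L[X]) = 0 := by
      by_contra hne
      exact hinv ⟨_, hne, h3⟩
    have h5 := congrArg (fun p : L[X] => p.eval 0) h4
    simp at h5
  obtain ⟨B, hAB, hIB⟩ := Ideal.image_subset_nonunits_valuationSubring I hI
  have hB : ∀ b : L[X], B.valuation (aeval τ⁻¹ b) ≤ 1 := fun b =>
    (B.valuation_le_one_iff _).2 (hAB (hA b))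
  have ht : B.valuation τ⁻¹ < 1 := by
    have h1 : τ⁻¹ ∈ B.nonunits := hIB ⟨⟨τ⁻¹, htA⟩, Ideal.subset_span rfl, rfl⟩
    exact (ValuationSubring.mem_nonunits_iff B).1 h1
  have hC : ∀ c : L, c ≠ 0 → B.valuation (algebraMap L Ω c) = 1 := by
    intro c hc
    have h1 := hB (C c)
    have h2 := hB (C c⁻¹)
    rw [aeval_C] at h1 h2
    rw [map_inv₀, map_inv₀] at h2
    have hne : B.valuation (algebraMap L Ω c) ≠ 0 := by
      rw [Valuation.ne_zero_iff]
      exact (_root_.map_ne_zero _).2 hc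
    refine le_antisymm h1 ?_
    by_contra hlt
    rw [not_le] at hlt
    have h3 : B.valuation (algebraMap L Ω c) * (B.valuation (algebraMap L Ω c))⁻¹ = 1 :=
      mul_inv_cancel₀ hne
    have h4 : B.valuation (algebraMap L Ω c) * (B.valuation (algebraMap L Ω c))⁻¹ < 1 :=
      mul_lt_one_of_lt_of_le hlt h2
    rw [h3] at h4
    exact lt_irrefl _ h4
  refine ⟨B.ValueGroup, inferInstance, B.valuation, ?_, ?_⟩
  · exact (Valuation.one_lt_val_iff B.valuation hτ0).2 ht
  · intro a ha
    have hrev : aeval τ a = τ ^ a.natDegree * aeval τ⁻¹ a.reverse := by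
      letI : Invertible τ := invertibleOfNonzero hτ0
      have h1 := eval₂_reverse_mul_pow (algebraMap L Ω) τ a
      rw [invOf_eq_inv] at h1
      rw [aeval_def, aeval_def, ← h1, mul_comm]
    have hdec : aeval τ⁻¹ a.reverse =
        aeval τ⁻¹ a.reverse.divX * τ⁻¹ + algebraMap L Ω a.leadingCoeff := by
      conv_lhs => rw [← divX_mul_X_add a.reverse]
      rw [map_add, map_mul, aeval_X, aeval_C, coeff_zero_reverse]
    have hone : B.valuation (aeval τ⁻¹ a.reverse) = 1 := by
      have h1 : B.valuation (aeval τ⁻¹ a.reverse.divX * τ⁻¹) <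
          B.valuation (algebraMap L Ω a.leadingCoeff) := by
        rw [hC _ (leadingCoeff_ne_zero.2 ha), map_mul]
        exact lt_of_le_of_lt (mul_le_of_le_one_left' (hB _)) ht
      rw [hdec, Valuation.map_add_eq_of_lt_right _ h1, hC _ (leadingCoeff_ne_zero.2 ha)]
    rw [hrev, map_mul, hone, mul_one, map_pow]

theorem pf_VAL : T_VAL := by
  intro L _ Ω _ _ hinj
  letI : Algebra L Ω := ((algebraMap (Polynomial L) Ω).comp Polynomial.C).toAlgebra
  have haev : ∀ a : L[X], algebraMap (Polynomial L) Ω a =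
      aeval (algebraMap (Polynomial L) Ω X) a := by
    intro a
    have : algebraMap (Polynomial L) Ω =
        (aeval (algebraMap (Polynomial L) Ω X) : L[X] →ₐ[L] Ω).toRingHom := by
      refine Polynomial.ringHom_ext ?_ ?_
      · intro c
        simp only [AlgHom.toRingHom_eq_coe, RingHom.coe_coe, aeval_C]
        rfl
      · simp
    exact congrArg (fun f : L[X] →+* Ω => f a) this
  have hτ : Transcendental L (algebraMap (Polynomial L) Ω X) := by
    rw [transcendental_iff_injective]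
    intro a b hab
    apply hinj
    rw [haev a, haev b]
    exact hab
  obtain ⟨Γ, hΓ, w, h1, h2⟩ := val_core L Ω _ hτ
  refine ⟨Γ, hΓ, w, h1, fun a ha => ?_⟩
  rw [haev a]
  exact h2 a ha

end Pool.Agent.H2.ZA
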